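import Pool.Agent.Helper76.ND.StC
import Pool.Agent.Helper76.ND.Lib

set_option autoImplicit false

noncomputable section

namespace Pool.Agent.Helper61.ND

open Pool.Agent.Helper76.ND Finset

private theorem sumD (M : ℕ) :
    ∑ p ∈ Icc 1 (M + 1), ∑ r ∈ Icc (p + 1) (M + 1), (if r = M + 1 then (-1 : ℂ) else 1) =
      (M : ℂ) * (M - 3) / 2 := by
  rw [Finset.sum_Icc_succ_top (by omega)]
  have h0 : Icc (M + 1 + 1) (M + 1) = ∅ := by
    rw [Icc_eq_empty_iff]; omega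
  rw [h0, sum_empty, add_zero]
  have h1 : ∀ p ∈ Icc 1 M, ∑ r ∈ Icc (p + 1) (M + 1), (if r = M + 1 then (-1 : ℂ) else 1) =
      (M : ℂ) - 1 - p := by
    intro p hp
    rw [mem_Icc] at hp
    rw [Finset.sum_Icc_succ_top (by omega), if_pos rfl]
    have h2 : ∑ r ∈ Icc (p + 1) M, (if r = M + 1 then (-1 : ℂ) else 1) =
        ∑ r ∈ Icc (p + 1) M, (1 : ℂ) := by
      refine sum_congr rfl fun r hr => ?_
      rw [mem_Icc] at hr
      rw [if_neg (by omega)]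
    rw [h2, sum_const, Nat.card_Icc, nsmul_eq_mul, mul_one]
    have h3 : M + 1 - (p + 1) = M - p := by omega
    rw [h3, Nat.cast_sub hp.2]
    ring
  rw [sum_congr rfl h1, sum_sub_distrib, sum_const, Nat.card_Icc, nsmul_eq_mul]
  have h4 : ∀ M : ℕ, ∑ p ∈ Icc 1 M, (p : ℂ) = (M : ℂ) * (M + 1) / 2 := by
    intro M
    induction M with
    | zero => simp
    | succ M ih =>
      rw [Finset.sum_Icc_succ_top (by omega), ih]
      push_cast
      ring
  rw [h4]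
  simp only [Nat.add_sub_cancel]
  ring

theorem hSm (hPb : StPb) (hLz : StLz) : StSm := by
  obtain ⟨hfb, hP, -⟩ := hPb
  intro T0
  have hT0 : (0 : ℝ) < (T0 : ℝ) + 4 := by positivity
  refine ⟨1 / (32 * ((T0 : ℝ) + 4)), (1 / 2) ^ (T0 + 5) * (2 / ((T0 : ℝ) + 4)),
    by positivity, by positivity, ?_⟩
  intro K Tt s X hs hT hX
  set N : ℕ := Tt + 4 with hN
  set Y : ℕ → ℝ := fun p => s * (2 : ℝ) ^ ((Tt : ℤ) + 3 - p) with hY
  have hl := hLz (Tt + 5) X Y (1 / (32 * ((T0 : ℝ) + 4))) (by positivity) (by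
    intro p hp
    rw [mem_Icc] at hp
    exact hX p hp.1 (by omega))
  -- the ideal phases
  have hYi : ∀ p : ℕ, p ≤ Tt + 3 → ∃ k : ℤ, Y p = k := by
    intro p hp
    refine ⟨s * 2 ^ (Tt + 3 - p), ?_⟩
    simp only [hY]
    have : (Tt : ℤ) + 3 - p = ((Tt + 3 - p : ℕ) : ℤ) := by omega
    rw [this, zpow_natCast]
    push_cast
    ring
  have hev : ∀ p ∈ Icc 1 (Tt + 4), ∀ r ∈ Icc (p + 1) (Tt + 4),
      ev (Y p + 3 * Y r) = if r = Tt + 3 + 1 then (-1 : ℂ) else 1 := by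
    intro p hp r hr
    rw [mem_Icc] at hp hr
    obtain ⟨k, hk⟩ := hYi p (by omega)
    by_cases h : r = Tt + 3 + 1
    · rw [if_pos h]
      obtain ⟨j, hj⟩ := hs
      have h1 : Y r = (j : ℝ) + 1 / 2 := by
        simp only [hY]
        have : (Tt : ℤ) + 3 - r = -1 := by rw [h]; push_cast; ring
        rw [this, hj, zpow_neg_one]
        push_cast
        ring
      have h2 : Y p + 3 * Y r = 1 / 2 + ((k + 3 * j + 1 : ℤ) : ℝ) := by
        rw [hk, h1]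
        push_cast
        ring
      rw [h2, ev_add_int, ev_half]
    · rw [if_neg h]
      obtain ⟨j, hj⟩ := hYi r (by omega)
      have h2 : Y p + 3 * Y r = ((k + 3 * j : ℤ) : ℝ) := by
        rw [hk, hj]; push_cast; ring
      rw [h2, ev_int]
  have hNr : (0 : ℝ) < (Tt : ℝ) + 4 := by positivity
  have hfY : fb (Tt + 5) Y = (1 - 4 / ((Tt : ℝ) + 4)) ^ 2 := by
    unfold fb
    have h5 : Tt + 5 - 1 = Tt + 3 + 1 := by omega
    rw [h5]
    have h6 : ∑ p ∈ Icc 1 (Tt + 3 + 1), ∑ r ∈ Icc (p + 1) (Tt + 3 + 1), ev (Y p + 3 * Y r) =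
        ((Tt + 3 : ℕ) : ℂ) * (((Tt + 3 : ℕ) : ℂ) - 3) / 2 := by
      rw [← sumD]
      exact sum_congr rfl fun p hp => sum_congr rfl fun r hr => hev p hp r hr
    rw [h6]
    have h7 : ((Tt + 3 : ℕ) : ℂ) * (((Tt + 3 : ℕ) : ℂ) - 3) / 2 =
        ((((Tt : ℝ) + 3) * Tt / 2 : ℝ) : ℂ) := by
      push_cast; ring
    rw [h7, Complex.norm_real, Real.norm_eq_abs, sq_abs, Nat.cast_choose_two]
    push_cast
    have h8 : (Tt : ℝ) + 3 + 1 = Tt + 4 := by ring
    have h9 : (Tt : ℝ) + 4 - 1 = Tt + 3 := by ring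
    have h10 : (0 : ℝ) < (Tt : ℝ) + 3 := by positivity
    rw [h8, h9]
    have h11 : ((Tt : ℝ) + 3) * Tt / 2 = (((Tt : ℝ) + 4) * (Tt + 3) / 2) * (1 - 4 / ((Tt : ℝ) + 4)) := by
      field_simp
      ring
    rw [h11, mul_pow, mul_comm, mul_div_assoc, div_self (by positivity), mul_one]
  have hfX : fb (Tt + 5) X ≤ 1 - 2 / ((T0 : ℝ) + 4) := by
    rw [hfY] at hl
    have hTt : (Tt : ℝ) + 4 ≤ (T0 : ℝ) + 4 := by
      have : (Tt : ℝ) ≤ T0 := by exact_mod_cast hT.le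
      linarith
    have h1 : 4 / ((T0 : ℝ) + 4) ≤ 4 / ((Tt : ℝ) + 4) :=
      div_le_div_of_nonneg_left (by norm_num) hNr hTt
    have h2 : 4 / ((Tt : ℝ) + 4) ≤ 1 := by
      rw [div_le_one hNr]
      have : (0 : ℝ) ≤ Tt := Nat.cast_nonneg _
      linarith
    have h3 : 0 < 4 / ((Tt : ℝ) + 4) := by positivity
    have h4 : 16 * Real.pi * (1 / (32 * ((T0 : ℝ) + 4))) ≤ 2 / ((T0 : ℝ) + 4) := by
      rw [mul_one_div, div_le_div_iff₀ (by positivity) hT0]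
      nlinarith [Real.pi_le_four, hT0]
    have h5 : (4 : ℝ) / ((T0 : ℝ) + 4) = 2 * (2 / ((T0 : ℝ) + 4)) := by ring
    nlinarith
  have hP3 : (1 / 2 : ℝ) ^ (T0 + 5) ≤ P3 (Tt + 5) := by
    have h1 : (1 / 2 : ℝ) ^ (T0 + 5) ≤ (1 / 2 : ℝ) ^ (Tt + 5) :=
      pow_le_pow_of_le_one (by norm_num) (by norm_num) (by omega)
    refine h1.trans ?_
    unfold P3
    rw [one_div, inv_pow, ← one_div]
    apply div_le_div_of_nonneg_right _ (by positivity)
    have : 1 ≤ (Tt + 5 - 1).choose 2 := Nat.choose_pos (by omega)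
    exact_mod_cast this
  -- the sum
  have hs1 : ∑ b ∈ Icc 3 K, P3 b * fb b X ≤ ∑ b ∈ Icc 3 (max K (Tt + 5)), P3 b * fb b X := by
    apply sum_le_sum_of_subset_of_nonneg
    · apply Icc_subset_Icc le_rfl (le_max_left _ _)
    · intro i _ _
      exact mul_nonneg (P3_nonneg _) (fb_nonneg _ _)
  have hs2 : ∑ b ∈ Icc 3 (max K (Tt + 5)), P3 b * fb b X =
      ∑ b ∈ Icc 3 (max K (Tt + 5)), P3 b - ∑ b ∈ Icc 3 (max K (Tt + 5)), P3 b * (1 - fb b X) := by
    rw [← sum_sub_distrib]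
    exact sum_congr rfl fun b _ => by ring
  have hs3 : P3 (Tt + 5) * (1 - fb (Tt + 5) X) ≤
      ∑ b ∈ Icc 3 (max K (Tt + 5)), P3 b * (1 - fb b X) := by
    apply single_le_sum (f := fun b => P3 b * (1 - fb b X))
    · intro i _
      exact mul_nonneg (P3_nonneg _) (by linarith [hfb i X])
    · rw [mem_Icc]
      exact ⟨by omega, le_max_right _ _⟩
  have hs4 := hP (max K (Tt + 5))
  have hs5 : (1 / 2 : ℝ) ^ (T0 + 5) * (2 / ((T0 : ℝ) + 4)) ≤
      P3 (Tt + 5) * (1 - fb (Tt + 5) X) := by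
    apply mul_le_mul hP3 (by linarith) (by positivity) (P3_nonneg _)
  linarith

end Pool.Agent.Helper61.ND
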